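import Pool.Agent.H.MP_a163f2_lc.Stmt

/-!
# Boldface classes on the finite powers of Baire space, in the sense of a set of reals

Definitions used in the statement of the final theorem.
-/

set_option autoImplicit false

namespace Pool.Agent.H.MP_a163f2_lc

/-- the finite power of `R` with exponent `m` -/
def Pow (R : Set (ℕ → ℕ)) (m : ℕ) : Set (Fin m → ℕ → ℕ) := {x | ∀ i, x i ∈ R}

/-- the code of the tuple of the initial segments of length `k` of the coordinates of `x` -/
def cdm {m : ℕ} (x : Fin m → ℕ → ℕ) (k : ℕ) : ℕ :=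
  Encodable.encode (List.ofFn fun i => (List.range k).map (x i))

/-- The boldface class with index `n` of subsets of the finite power of `R` with exponent `m`: for
`n = 0` the open subsets with a code in `R`; a set is in the class with index `n + 1`, that is
boldface Sigma-1-(n+1), if it is the projection along `R` of the complement of a subset of the next
power in the class with index `n`. -/
def SigM (R : Set (ℕ → ℕ)) : ℕ → (m : ℕ) → Set (Fin m → ℕ → ℕ) → Prop
  | 0, m, A => ∃ a ∈ R, A = {x | x ∈ Pow R m ∧ ∃ k, a (cdm x k) ≠ 0}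
  | n + 1, m, A => ∃ B : Set (Fin (m + 1) → ℕ → ℕ), SigM R n (m + 1) B ∧
      A = {x | x ∈ Pow R m ∧ ∃ y ∈ R, (Fin.cons y x : Fin (m + 1) → ℕ → ℕ) ∉ B}

/-- boldface Pi-1-n subsets of the finite power with exponent `m` -/
def PiM (R : Set (ℕ → ℕ)) (n m : ℕ) (A : Set (Fin m → ℕ → ℕ)) : Prop :=
  A ⊆ Pow R m ∧ SigM R n m (Pow R m \ A)

/-- the separation property of a class of subsets of `X` -/
def SepG {T : Type} (X : Set T) (Γ : Set T → Prop) : Prop :=
  ∀ A B, Γ A → Γ B → Disjoint A B → ∃ C, Γ C ∧ Γ (X \ C) ∧ A ⊆ C ∧ Disjoint C B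

/-- the reduction property of a class of sets -/
def RedG {T : Type} (Γ : Set T → Prop) : Prop :=
  ∀ A B, Γ A → Γ B →
    ∃ A' B', Γ A' ∧ Γ B' ∧ A' ⊆ A ∧ B' ⊆ B ∧ Disjoint A' B' ∧ A' ∪ B' = A ∪ B

end Pool.Agent.H.MP_a163f2_lc
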