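import Mathlib
import Pool.Agent.H.MP_07d118_lc.Base

/-!
# MP_a163f2_lc: models of ZFC and boldface projective classes over their reals

Definitions used in the statement of the main theorem.
-/

set_option autoImplicit false

namespace Pool.Agent.H.MP_a163f2_lc

open Pool.Agent.H.MP_07d118_lc

universe u

/-- The axioms of ZFC: ZF (with the schemata of separation and replacement for all first-order
formulas with parameters) and choice (every set of nonempty pairwise disjoint sets has a
transversal). -/
class ZFC (M : Type u) [SetStr M] : Prop extends ZF M where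
  choice : ∀ a : M, (∀ x : M, x ∈ a → ∃ y : M, y ∈ x) →
    (∀ x y z : M, x ∈ a → y ∈ a → z ∈ x → z ∈ y → x = y) →
    ∃ c : M, ∀ x : M, x ∈ a → ∃! y : M, y ∈ x ∧ y ∈ c

/-- A set or class of sets is a structure for the language of set theory, with the true
membership relation. -/
instance instSetStr (N : Set ZFSet.{0}) : SetStr N := ⟨fun x y => (x : ZFSet) ∈ (y : ZFSet)⟩

/-- `N` is transitive. -/
def Trans (N : Set ZFSet.{0}) : Prop := ∀ x ∈ N, ∀ y ∈ x, y ∈ N

/-- The von Neumann numeral. -/
noncomputable def num : ℕ → ZFSet.{0}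
  | 0 => ∅
  | n + 1 => insert (num n) (num n)

/-- The graph of `x`, the set of all ordered pairs `(n, x n)`. -/
noncomputable def graph (x : ℕ → ℕ) : ZFSet.{0} :=
  ZFSet.range fun n : ℕ => ZFSet.pair (num n) (num (x n))

/-- The reals (elements of Baire space) of the model `N`. -/
def Reals (N : Set ZFSet.{0}) : Set (ℕ → ℕ) := {x | graph x ∈ N}

/-- The pair of two reals, as a real. -/
def jn (x y : ℕ → ℕ) : ℕ → ℕ := fun n => if n % 2 = 0 then x (n / 2) else y (n / 2)

/-- The code of the initial segment of length `k` of `x`. -/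
def cd (x : ℕ → ℕ) (k : ℕ) : ℕ := Encodable.encode ((List.range k).map x)

/-- The boldface class with index `n` over a set `R` of reals (the reals of a model). For `n = 0`
these are the open subsets of `R` with a code in `R`; a set is in the class with index `n + 1`,
that is boldface Sigma-1-(n+1), if it is the projection along `R` of the complement of a set in
the class with index `n`. -/
def Sig (R : Set (ℕ → ℕ)) : ℕ → Set (ℕ → ℕ) → Prop
  | 0, A => ∃ a ∈ R, A = {x | x ∈ R ∧ ∃ k, a (cd x k) ≠ 0}
  | n + 1, A => ∃ B, Sig R n B ∧ A = {x | x ∈ R ∧ ∃ y ∈ R, jn x y ∉ B}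

/-- Boldface Pi-1-n over `R`. -/
def PiR (R : Set (ℕ → ℕ)) (n : ℕ) (A : Set (ℕ → ℕ)) : Prop := A ⊆ R ∧ Sig R n (R \ A)

/-- The separation property of a class of subsets of `R`. -/
def Separation (R : Set (ℕ → ℕ)) (Γ : Set (ℕ → ℕ) → Prop) : Prop :=
  ∀ A B, Γ A → Γ B → Disjoint A B → ∃ C, Γ C ∧ Γ (R \ C) ∧ A ⊆ C ∧ Disjoint C B

/-- The reduction property of a class of sets of reals. -/
def Reduction (Γ : Set (ℕ → ℕ) → Prop) : Prop :=
  ∀ A B, Γ A → Γ B →
    ∃ A' B', Γ A' ∧ Γ B' ∧ A' ⊆ A ∧ B' ⊆ B ∧ Disjoint A' B' ∧ A' ∪ B' = A ∪ B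

/-- The main statement: there is a transitive model of ZFC which satisfies boldface
Sigma-1-3-separation and in which boldface Pi-1-n-reduction fails for every `n ≥ 3`. -/
def MainStatement : Prop :=
  ∃ N : Set ZFSet.{0}, Trans N ∧ ZFC N ∧ Separation (Reals N) (Sig (Reals N) 3) ∧
    ∀ n ≥ 3, ¬ Reduction (PiR (Reals N) n)

end Pool.Agent.H.MP_a163f2_lc
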