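import Pool.Agent.H.MP_a163f2_lc.T5

/-!
# Interfaces between the blocks

`Om1 M W`: the coded well order `W` is the first uncountable ordinal of `M`.
`Luz M W c`: the family `c` of reals has the strong Luzin property.
`RU M W R`: closure and absoluteness properties of a set `R` of reals over `M`.
-/

set_option autoImplicit false
set_option linter.unusedSectionVars false

namespace Pool.Agent.H.MP_a163f2_lc

open Pool.Agent.H.MP_07d118_lc

universe u v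

/-- a transitive class is standard -/
instance instStdSet (S : Set ZFSet.{0}) : Std S where
  wf := InvImage.wf (fun x : S => (x : ZFSet.{0})) ZFSet.mem_wf

/-- finite sequences -/
abbrev Fs := List ℕ

/-- Codes of clopen sets: the code `h` codes the union of the basic open sets given by the members
of `h.1`; `h.2` is a dummy. -/
abbrev Hc := List (List ℕ) × List ℕ

/-- the initial segment of length `k` -/
def ini (x : ℕ → ℕ) (k : ℕ) : Fs := (List.range k).map x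

/-- `m` is an initial segment of `x` -/
def Pre (x : ℕ → ℕ) (m : Fs) : Prop := ini x m.length = m

/-- `z` belongs to the clopen set coded by `h` -/
def Clo (h : Hc) (z : ℕ → ℕ) : Prop := ∃ u ∈ h.1, Pre z u

/-! ### Triples of reals -/

/-- the real `T(x,y,i)` -/
def T3 (x y : ℕ → ℕ) (i : ℕ) : ℕ → ℕ := fun n =>
  if n = 0 then i else if n % 2 = 1 then x (n / 2) else y (n / 2 - 1)

def zi (z : ℕ → ℕ) : ℕ := z 0
def zx (z : ℕ → ℕ) : ℕ → ℕ := fun n => z (2 * n + 1)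
def za (z : ℕ → ℕ) : ℕ → ℕ := fun n => z (2 * n + 2)

/-- The Sigma-1-3 statement with code `a` about `x` over the set `R` of reals. -/
def U3 (R : Set (ℕ → ℕ)) (x a : ℕ → ℕ) : Prop :=
  ∃ y₁ ∈ R, ∀ y₂ ∈ R, ∃ y₃ ∈ R, ∀ k, a (cd (jn (jn (jn x y₁) y₂) y₃) k) = 0

theorem cd_eq (x : ℕ → ℕ) (k : ℕ) : cd x k = Encodable.encode (ini x k) := rfl

section

variable (M : Type u) [SetStr M] [ZF M] [Std M] (W : Type v) [LinearOrder W] [Cd M W]

/-- `W` is the first uncountable ordinal of the model `M`. -/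
class Om1 : Prop where
  ne : Nonempty W
  wf : WellFounded ((· < ·) : W → W → Prop)
  lt_in : In M (fun y : W × W => y.1 < y.2)
  below : ∀ α : W, ∃ f : W → ℕ, IF M f ∧ Set.InjOn f {β | β < α}
  bdd : ∀ f : ℕ → W, IF M f → ∃ α, ∀ n, f n < α

/-- The tuples in `D` are dense among the tuples of length `b`. -/
def DenseT (b : ℕ) (D : Set (List Fs)) : Prop :=
  ∀ s : List Fs, s.length = b → ∃ t ∈ D, List.Forall₂ (fun a a' => a <+: a') s t

/-- The strong Luzin property (L0), (L1), (L2). -/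
structure Luz (c : W × Hc → ℕ → ℕ) : Prop where
  int : IF M (fun y : (W × Hc) × ℕ => c y.1 y.2)
  inj : Function.Injective c
  pre : ∀ (ξ : W) (L : List (List ℕ)) (τ : Fs), Pre (c (ξ, (L, τ))) τ
  luz : ∀ Φ : W × ℕ → ISet M (List Fs), IF M Φ → ∀ ζ₀ : W, ∃ ξ₀, ζ₀ < ξ₀ ∧
    ∀ ζ < ξ₀, ∀ (n : ℕ) (k : List (W × Hc)), k.Nodup → (∀ κ ∈ k, ξ₀ ≤ κ.1) →
      DenseT k.length (Φ (ζ, n)).1 →
      ∃ t, t ∈ Φ (ζ, n) ∧ List.Forall₂ (fun κ u => Pre (c κ) u) k t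

open Classical in
/-- Closure properties of a set `R` of reals, and: a tree in `R` has a branch in `R` or a rank
function with values below an element of `W`. -/
structure RU (R : Set (ℕ → ℕ)) : Prop where
  ground : ∀ x : ℕ → ℕ, IF M x → x ∈ R
  comp : ∀ x ∈ R, ∀ y ∈ R, (fun n => x (y n)) ∈ R
  pair : ∀ x ∈ R, ∀ y ∈ R, (fun n => Nat.pair (x n) (y n)) ∈ R
  jump : ∀ x ∈ R, (fun n => if ∃ m, x (Nat.pair n m) = 0 then 1 else 0) ∈ R
  prec : ∀ x ∈ R, ∀ a : ℕ,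
    (fun n => Nat.rec (motive := fun _ => ℕ) a (fun i k => x (Nat.pair i k)) n) ∈ R
  mu : ∀ x ∈ R, ∀ y : ℕ → ℕ,
    (∀ n, x (Nat.pair n (y n)) = 0 ∧ ∀ m < y n, x (Nat.pair n m) ≠ 0) → y ∈ R
  del : ∀ a ∈ R, (∃ y ∈ R, ∀ k, a (cd y k) = 0) ∨
    ∃ (α : W) (ρ : Fs → W), (∀ u, ρ u < α) ∧ ∀ (u : Fs) (n : ℕ),
      (∀ v, v <+: u ++ [n] → a (Encodable.encode v) = 0) → ρ (u ++ [n]) < ρ u

/-- (L3): the set of the `c k` is Sigma-1-2 over every `R` with `RU`. -/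
def L3 (c : W × Hc → ℕ → ℕ) : Prop :=
  ∀ R : Set (ℕ → ℕ), RU M W R →
    Sig R 2 {z | z ∈ R ∧ ∃ (ξ : W) (h : Hc), z 0 = Encodable.encode h ∧
      (fun n => z (n + 1)) = c (ξ, h)}

end

/-- The theorem of block L: the ground model. -/
def GroundStatement : Prop :=
  ∃ (S : Set ZFSet.{0}) (_ : Trans S) (_ : S.Countable) (_ : ZFC S) (W : Type 1)
    (_ : LinearOrder W) (_ : Cd S W) (_ : Om1 S W) (c : W × Hc → ℕ → ℕ), Luz S W c ∧ L3 S W c

/-- `G` is a generic filter over `S` for the poset `P` with the order `L`. -/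
structure Generic (S : Set ZFSet.{0}) (P L : ZFSet.{0}) (G : Set ZFSet.{0}) : Prop where
  sub : ∀ p ∈ G, p ∈ P
  ne : G.Nonempty
  up : ∀ p ∈ G, ∀ q ∈ P, ZFSet.pair p q ∈ L → q ∈ G
  dir : ∀ p ∈ G, ∀ q ∈ G, ∃ r ∈ G, ZFSet.pair r p ∈ L ∧ ZFSet.pair r q ∈ L
  meets : ∀ D ∈ S, (∀ p ∈ P, ∃ q ∈ P, ZFSet.pair q p ∈ L ∧ q ∈ D) → ∃ p ∈ G, p ∈ D

/-- The theorem of block Z: the forcing theorem. -/
def ForcingStatement : Prop :=
  ∀ (S : Set ZFSet.{0}), Trans S → S.Countable → ZFC S → ∀ P ∈ S, ∀ L ∈ S,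
    (∀ p ∈ P, ZFSet.pair p p ∈ L) →
    (∀ p ∈ P, ∀ q ∈ P, ∀ r ∈ P, ZFSet.pair p q ∈ L → ZFSet.pair q r ∈ L → ZFSet.pair p r ∈ L) →
    ∀ G : Set ZFSet.{0}, Generic S P L G →
    ∃ N : Set ZFSet.{0}, Trans N ∧ ZFC N ∧ S ⊆ N ∧ ∀ x : ℕ → ℕ, x ∈ Reals N ↔
      ∃ R ∈ S, ∀ n k, (x n = k ↔ ∃ p ∈ G, ZFSet.pair (ZFSet.pair (num n) (num k)) p ∈ R)

end Pool.Agent.H.MP_a163f2_lc
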