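import Pool.Agent.H.MP_07d118_lc.Nat
import Pool.Agent.H.MP_a163f2_lc.Stmt

/-!
# Block T, part 1: coded types and internal relations over a model of ZF

`Cd M T`: the type `T` is coded in the model `M`, the codes forming a set of `M`.
`In M P`: the relation `P` on a coded type is internal (its set of codes is in `M`).
`IF M f`: the function `f` is internal.  `ISet M T`: the internal subsets of `T`.
`IFn M T S`: the internal functions from `T` to `S`.

Closure properties are stated `in context`: the variables are internal functions of one variable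
`t : T` (the context), a quantifier over `S` uses the context `T × S`.
-/

set_option autoImplicit false
set_option linter.unusedSectionVars false

namespace Pool.Agent.H.MP_a163f2_lc

open Pool.Agent.H.MP_07d118_lc

universe u v w x

/-- The membership relation of the model is well founded. -/
class Std (M : Type u) [SetStr M] : Prop where
  wf : WellFounded (SetStr.E : M → M → Prop)

/-- Coding of a Lean type by the elements of a set of the model. -/
class Cd (M : Type u) [SetStr M] (T : Type v) where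
  code : T → M
  inj : Function.Injective code
  car : M
  mem_car : ∀ x : M, x ∈ car ↔ ∃ t, code t = x

/-- `P` is internal: the set of the codes of the `t` with `P t` is a set of the model. -/
def In (M : Type u) [SetStr M] {T : Type v} [Cd M T] (P : T → Prop) : Prop :=
  ∃ r : M, ∀ t, Cd.code t ∈ r ↔ P t

variable {M : Type u} [SetStr M]
variable {T : Type v} {S : Type w} {U : Type x}

/-- Products are coded by ordered pairs. -/
noncomputable instance instCdProd [ZF M] [Cd M T] [Cd M S] : Cd M (T × S) where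
  code p := opair (Cd.code p.1) (Cd.code p.2)
  inj := by
    rintro ⟨a, b⟩ ⟨c, d⟩ h
    obtain ⟨h1, h2⟩ := opair_inj.1 h
    exact Prod.ext (Cd.inj h1) (Cd.inj h2)
  car := prod (Cd.car T) (Cd.car S)
  mem_car := by
    intro z
    rw [mem_prod]
    constructor
    · rintro ⟨x, hx, y, hy, rfl⟩
      obtain ⟨t, rfl⟩ := (Cd.mem_car x).1 hx
      obtain ⟨s, rfl⟩ := (Cd.mem_car y).1 hy
      exact ⟨(t, s), rfl⟩
    · rintro ⟨⟨t, s⟩, rfl⟩
      exact ⟨_, (Cd.mem_car _).2 ⟨t, rfl⟩, _, (Cd.mem_car _).2 ⟨s, rfl⟩, rfl⟩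

/-- `f` is an internal function. -/
def IF (M : Type u) [SetStr M] [ZF M] [Cd M T] [Cd M S] (f : T → S) : Prop :=
  In M (fun p : T × S => f p.1 = p.2)

/-- The internal subsets of a coded type. -/
def ISet (M : Type u) [SetStr M] (T : Type v) [Cd M T] : Type v :=
  {A : Set T // In M (fun t => t ∈ A)}

/-- The internal functions between two coded types. -/
def IFn (M : Type u) [SetStr M] [ZF M] (T : Type v) [Cd M T] (S : Type w) [Cd M S] :
    Type (max v w) := {f : T → S // IF M f}

instance instMemISet [Cd M T] : Membership T (ISet M T) := ⟨fun A t => t ∈ A.1⟩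

/-! ### Definability with codes -/

section closure

variable [ZF M] [Cd M T] [Cd M S] [Cd M U]

theorem code_mem_car (t : T) : (Cd.code t : M) ∈ (Cd.car T : M) := (Cd.mem_car _).2 ⟨t, rfl⟩

theorem code_prod (t : T) (s : S) : (Cd.code (t, s) : M) = opair (Cd.code t) (Cd.code s) := rfl

theorem In.congr {P Q : T → Prop} (h : In M P) (e : ∀ t, Q t ↔ P t) : In M Q := by
  obtain ⟨r, hr⟩ := h
  exact ⟨r, fun t => (hr t).trans (e t).symm⟩

/-- A relation which is definable on codes is internal. -/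
theorem In.of_df {P : T → Prop} {R : M → Prop} (hR : Df (fun w : Fin 1 → M => R (w 0)))
    (h : ∀ t, P t ↔ R (Cd.code t)) : In M P :=
  ⟨sep (Cd.car T) R, fun t => by rw [mem_sep hR, h]; simp [code_mem_car]⟩

theorem In.const (p : Prop) : In M (fun _ : T => p) :=
  In.of_df (R := fun _ => p) (Df.prop p) fun _ => Iff.rfl

theorem In.imp {P Q : T → Prop} (hP : In M P) (hQ : In M Q) : In M (fun t => P t → Q t) := by
  obtain ⟨r, hr⟩ := hP
  obtain ⟨s, hs⟩ := hQ
  refine In.of_df (R := fun x => x ∈ r → x ∈ s)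
    ((Df.mem (DfF.var 0) (DfF.const r)).imp (Df.mem (DfF.var 0) (DfF.const s))) fun t => ?_
  rw [hr, hs]

theorem In.not {P : T → Prop} (hP : In M P) : In M (fun t => ¬ P t) :=
  (hP.imp (In.const False)).congr fun _ => Iff.rfl

theorem In.and {P Q : T → Prop} (hP : In M P) (hQ : In M Q) : In M (fun t => P t ∧ Q t) :=
  (hP.imp hQ.not).not.congr fun _ => by tauto

theorem In.or {P Q : T → Prop} (hP : In M P) (hQ : In M Q) : In M (fun t => P t ∨ Q t) :=
  (hP.not.imp hQ).congr fun _ => by tauto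

theorem In.iff {P Q : T → Prop} (hP : In M P) (hQ : In M Q) : In M (fun t => P t ↔ Q t) :=
  ((hP.imp hQ).and (hQ.imp hP)).congr fun _ => by tauto

theorem In.ex {P : T → S → Prop} (h : In M (fun y : T × S => P y.1 y.2)) :
    In M (fun t => ∃ s, P t s) := by
  obtain ⟨r, hr⟩ := h
  refine In.of_df (R := fun x => ∃ y, y ∈ (Cd.car S : M) ∧ opair x y ∈ r) ?_ fun t => ?_
  · refine Df.ex (P := fun y (w : Fin 1 → M) => y ∈ (Cd.car S : M) ∧ opair (w 0) y ∈ r) ?_
    exact (Df.mem (DfF.var 0) (DfF.const _)).and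
      (Df.mem (DfF.Opair (DfF.var 1) (DfF.var 0)) (DfF.const _))
  · constructor
    · rintro ⟨s, hs⟩
      exact ⟨Cd.code s, code_mem_car s, (hr (t, s)).2 hs⟩
    · rintro ⟨y, hy, h⟩
      obtain ⟨s, rfl⟩ := (Cd.mem_car y).1 hy
      exact ⟨s, (hr (t, s)).1 h⟩

theorem In.all {P : T → S → Prop} (h : In M (fun y : T × S => P y.1 y.2)) :
    In M (fun t => ∀ s, P t s) :=
  (In.ex (P := fun t s => ¬ P t s) h.not).not.congr fun _ => by simp

/-- fixing the first variable -/
theorem In.fix {P : T → S → Prop} (h : In M (fun y : T × S => P y.1 y.2)) (t : T) :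
    In M (fun s => P t s) := by
  obtain ⟨r, hr⟩ := h
  refine In.of_df (R := fun x => opair (Cd.code t) x ∈ r) ?_ fun s => (hr (t, s)).symm
  exact Df.mem (DfF.Opair (DfF.const _) (DfF.var 0)) (DfF.const _)

/-! ### Internal functions -/

theorem In.comp {P : S → Prop} (h : In M P) {f : T → S} (hf : IF M f) : In M (fun t => P (f t)) := by
  obtain ⟨r, hr⟩ := h
  obtain ⟨g, hg⟩ := hf
  have h1 : In M (fun y : T × S => f y.1 = y.2 ∧ P y.2) := by
    refine In.of_df (R := fun x => x ∈ g ∧ ∃ a, ∃ b, x = opair a b ∧ b ∈ r) ?_ fun y => ?_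
    · refine (Df.mem (DfF.var 0) (DfF.const _)).and ?_
      refine Df.ex (P := fun a (w : Fin 1 → M) => ∃ b, w 0 = opair a b ∧ b ∈ r) ?_
      refine Df.ex (P := fun b (w : Fin 2 → M) => w 1 = opair (w 0) b ∧ b ∈ r) ?_
      exact (Df.eq (DfF.var 2) (DfF.Opair (DfF.var 1) (DfF.var 0))).and
        (Df.mem (DfF.var 0) (DfF.const _))
    · refine and_congr (hg y).symm ?_
      obtain ⟨t, s⟩ := y
      constructor
      · intro hp
        exact ⟨_, _, rfl, (hr s).2 hp⟩
      · rintro ⟨a, b, h1, h2⟩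
        obtain ⟨-, rfl⟩ := opair_inj.1 h1
        exact (hr s).1 h2
  exact (In.ex (P := fun t s => f t = s ∧ P s) h1).congr fun t => by simp

theorem IF.of_df {f : T → S} {F : M → M} (hF : DfF (fun w : Fin 1 → M => F (w 0)))
    (h : ∀ t, Cd.code (f t) = F (Cd.code t)) : IF M f := by
  refine In.of_df (R := fun x => ∃ a, ∃ b, x = opair a b ∧ b = F a) ?_ fun y => ?_
  · refine Df.ex (P := fun a (w : Fin 1 → M) => ∃ b, w 0 = opair a b ∧ b = F a) ?_
    refine Df.ex (P := fun b (w : Fin 2 → M) => w 1 = opair (w 0) b ∧ b = F (w 0)) ?_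
    exact (Df.eq (DfF.var 2) (DfF.Opair (DfF.var 1) (DfF.var 0))).and
      (Df.eq (DfF.var 0) (hF.wk (fun _ => 1)))
  · obtain ⟨t, s⟩ := y
    constructor
    · intro h0
      obtain rfl : f t = s := h0
      exact ⟨_, _, rfl, h t⟩
    · rintro ⟨a, b, h1, h2⟩
      obtain ⟨rfl, rfl⟩ := opair_inj.1 h1
      exact Cd.inj ((h t).trans h2.symm)

theorem IF.id : IF M (fun t : T => t) :=
  IF.of_df (F := fun x => x) (DfF.var 0) fun _ => rfl

theorem IF.const (s : S) : IF M (fun _ : T => s) :=
  IF.of_df (F := fun _ => Cd.code s) (DfF.const _) fun _ => rfl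

/-- the relation `R (f t) (g t)` -/
theorem In.eq {f g : T → S} (hf : IF M f) (hg : IF M g) : In M (fun t => f t = g t) := by
  obtain ⟨a, ha⟩ := hf
  obtain ⟨b, hb⟩ := hg
  refine In.of_df (R := fun x => ∃ y, opair x y ∈ a ∧ opair x y ∈ b ∧ y ∈ (Cd.car S : M)) ?_ fun t => ?_
  · refine Df.ex (P := fun y (w : Fin 1 → M) => opair (w 0) y ∈ a ∧ opair (w 0) y ∈ b ∧
      y ∈ (Cd.car S : M)) ?_
    exact (Df.mem (DfF.Opair (DfF.var 1) (DfF.var 0)) (DfF.const _)).and
      ((Df.mem (DfF.Opair (DfF.var 1) (DfF.var 0)) (DfF.const _)).and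
        (Df.mem (DfF.var 0) (DfF.const _)))
  · constructor
    · intro h
      exact ⟨Cd.code (f t), (ha (t, f t)).2 rfl, (hb (t, f t)).2 h.symm, code_mem_car _⟩
    · rintro ⟨y, h1, h2, h3⟩
      obtain ⟨s, rfl⟩ := (Cd.mem_car y).1 h3
      exact ((ha (t, s)).1 h1).trans ((hb (t, s)).1 h2).symm

theorem IF.fst : IF M (Prod.fst : T × S → T) := by
  refine In.of_df (R := fun x => ∃ a, ∃ b, x = opair (opair a b) a) ?_ fun y => ?_
  · refine Df.ex (P := fun a (w : Fin 1 → M) => ∃ b, w 0 = opair (opair a b) a) ?_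
    refine Df.ex (P := fun b (w : Fin 2 → M) => w 1 = opair (opair (w 0) b) (w 0)) ?_
    exact Df.eq (DfF.var 2) (DfF.Opair (DfF.Opair (DfF.var 1) (DfF.var 0)) (DfF.var 1))
  · obtain ⟨⟨t, s⟩, t'⟩ := y
    constructor
    · intro h0
      obtain rfl : t = t' := h0
      exact ⟨_, _, rfl⟩
    · rintro ⟨a, b, h⟩
      obtain ⟨h1, h2⟩ := opair_inj.1 h
      obtain ⟨h3, -⟩ := opair_inj.1 h1
      exact Cd.inj (h3.trans h2.symm)

theorem IF.snd : IF M (Prod.snd : T × S → S) := by
  refine In.of_df (R := fun x => ∃ a, ∃ b, x = opair (opair a b) b) ?_ fun y => ?_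
  · refine Df.ex (P := fun a (w : Fin 1 → M) => ∃ b, w 0 = opair (opair a b) b) ?_
    refine Df.ex (P := fun b (w : Fin 2 → M) => w 1 = opair (opair (w 0) b) b) ?_
    exact Df.eq (DfF.var 2) (DfF.Opair (DfF.Opair (DfF.var 1) (DfF.var 0)) (DfF.var 0))
  · obtain ⟨⟨t, s⟩, s'⟩ := y
    constructor
    · intro h0
      obtain rfl : s = s' := h0
      exact ⟨_, _, rfl⟩
    · rintro ⟨a, b, h⟩
      obtain ⟨h1, h2⟩ := opair_inj.1 h
      obtain ⟨-, h3⟩ := opair_inj.1 h1
      exact Cd.inj (h3.trans h2.symm)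

/-- An internal relation whose sections are the graphs of `f`. -/
theorem IF.comp {g : S → U} (hg : IF M g) {f : T → S} (hf : IF M f) : IF M (fun t => g (f t)) := by
  have h1 : In M (fun y : (T × U) × S => f y.1.1 = y.2) := by
    obtain ⟨a, ha⟩ := hf
    refine In.of_df (R := fun x => ∃ t, ∃ z, ∃ s, x = opair (opair t z) s ∧ opair t s ∈ a) ?_
      fun y => ?_
    · refine Df.ex (P := fun t (w : Fin 1 → M) => ∃ z, ∃ s, w 0 = opair (opair t z) s ∧
        opair t s ∈ a) ?_
      refine Df.ex (P := fun z (w : Fin 2 → M) => ∃ s, w 1 = opair (opair (w 0) z) s ∧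
        opair (w 0) s ∈ a) ?_
      refine Df.ex (P := fun s (w : Fin 3 → M) => w 2 = opair (opair (w 1) (w 0)) s ∧
        opair (w 1) s ∈ a) ?_
      exact (Df.eq (DfF.var 3) (DfF.Opair (DfF.Opair (DfF.var 2) (DfF.var 1)) (DfF.var 0))).and
        (Df.mem (DfF.Opair (DfF.var 2) (DfF.var 0)) (DfF.const _))
    · obtain ⟨⟨t, z⟩, s⟩ := y
      constructor
      · intro h
        exact ⟨_, _, _, rfl, (ha (t, s)).2 h⟩
      · rintro ⟨t', z', s', h1, h2⟩
        obtain ⟨h3, rfl⟩ := opair_inj.1 h1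
        obtain ⟨rfl, -⟩ := opair_inj.1 h3
        exact (ha (t, s)).1 h2
  have h2 : In M (fun y : (T × U) × S => g y.2 = y.1.2) := by
    obtain ⟨a, ha⟩ := hg
    refine In.of_df (R := fun x => ∃ t, ∃ z, ∃ s, x = opair (opair t z) s ∧ opair s z ∈ a) ?_
      fun y => ?_
    · refine Df.ex (P := fun t (w : Fin 1 → M) => ∃ z, ∃ s, w 0 = opair (opair t z) s ∧
        opair s z ∈ a) ?_
      refine Df.ex (P := fun z (w : Fin 2 → M) => ∃ s, w 1 = opair (opair (w 0) z) s ∧
        opair s z ∈ a) ?_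
      refine Df.ex (P := fun s (w : Fin 3 → M) => w 2 = opair (opair (w 1) (w 0)) s ∧
        opair s (w 0) ∈ a) ?_
      exact (Df.eq (DfF.var 3) (DfF.Opair (DfF.Opair (DfF.var 2) (DfF.var 1)) (DfF.var 0))).and
        (Df.mem (DfF.Opair (DfF.var 0) (DfF.var 1)) (DfF.const _))
    · obtain ⟨⟨t, z⟩, s⟩ := y
      constructor
      · intro h
        exact ⟨_, _, _, rfl, (ha (s, z)).2 h⟩
      · rintro ⟨t', z', s', h1, h2⟩
        obtain ⟨h3, rfl⟩ := opair_inj.1 h1
        obtain ⟨-, rfl⟩ := opair_inj.1 h3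
        exact (ha (s, z)).1 h2
  refine (In.ex (P := fun (y : T × U) s => f y.1 = s ∧ g s = y.2) (h1.and h2)).congr fun y => ?_
  simp

theorem IF.pair {f : T → S} (hf : IF M f) {g : T → U} (hg : IF M g) :
    IF M (fun t => (f t, g t)) := by
  have h1 : In M (fun y : T × (S × U) => f y.1 = y.2.1) :=
    In.eq (IF.comp hf IF.fst) (IF.comp IF.fst IF.snd)
  have h2 : In M (fun y : T × (S × U) => g y.1 = y.2.2) :=
    In.eq (IF.comp hg IF.fst) (IF.comp IF.snd IF.snd)
  exact (h1.and h2).congr fun y => Prod.ext_iff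

/-- An internal total functional relation is an internal function. -/
theorem IF.of_in {f : T → S} (h : In M (fun y : T × S => f y.1 = y.2)) : IF M f := h

theorem IF.congr {f g : T → S} (hf : IF M f) (h : ∀ t, g t = f t) : IF M g := by
  have : g = f := funext h
  rw [this]; exact hf

theorem IF.ite {P : T → Prop} [DecidablePred P] (hP : In M P) {f g : T → S} (hf : IF M f) (hg : IF M g) :
    IF M (fun t => if P t then f t else g t) := by
  refine IF.of_in ((((hP.comp (IF.fst (S := S))).and hf).or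
    ((hP.comp (IF.fst (S := S))).not.and hg)).congr fun y => ?_)
  by_cases h : P y.1 <;> simp [h]

/-- two-variable relations -/
theorem In.comp2 {P : S → U → Prop} (h : In M (fun y : S × U => P y.1 y.2)) {f : T → S}
    (hf : IF M f) {g : T → U} (hg : IF M g) : In M (fun t => P (f t) (g t)) :=
  h.comp (hf.pair hg)

theorem IF.comp2 {V : Type*} [Cd M V] {F : S → U → V} (h : IF M (fun y : S × U => F y.1 y.2))
    {f : T → S} (hf : IF M f) {g : T → U} (hg : IF M g) : IF M (fun t => F (f t) (g t)) :=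
  IF.comp h (hf.pair hg)

theorem IF.inj_in {f : T → S} (hf : IF M f) : In M (fun s : S => ∃ t, f t = s) :=
  In.ex (P := fun (s : S) (t : T) => f t = s) (In.eq (IF.comp hf IF.snd) IF.fst)

end closure

end Pool.Agent.H.MP_a163f2_lc
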