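import Pool.Agent.H.MP_a163f2_lc.T1

/-!
# Block T, part 2: internal sets and internal functions as coded types
-/

set_option autoImplicit false
set_option linter.unusedSectionVars false

namespace Pool.Agent.H.MP_a163f2_lc

open Pool.Agent.H.MP_07d118_lc

universe u v w x

variable {M : Type u} [SetStr M]
variable {T : Type v} {S : Type w} {U : Type x}

section

variable [ZF M] [Cd M T] [Cd M S] [Cd M U]

@[ext] theorem ISet.ext {A B : ISet M T} (h : ∀ t, t ∈ A ↔ t ∈ B) : A = B :=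
  Subtype.ext (Set.ext h)

/-- the internal set given by an internal relation -/
def ISet.mk {P : T → Prop} (h : In M P) : ISet M T := ⟨{t | P t}, h⟩

@[simp] theorem ISet.mem_mk {P : T → Prop} (h : In M P) {t : T} : t ∈ ISet.mk h ↔ P t := Iff.rfl

theorem ISet.mem_val {A : ISet M T} {t : T} : t ∈ A.1 ↔ t ∈ A := Iff.rfl

theorem ISet.in_mem (A : ISet M T) : In M (fun t => t ∈ A) := A.2

/-- the code of an internal set -/
noncomputable def ISet.cod (A : ISet M T) : M := sep A.2.choose (fun x => x ∈ (Cd.car T : M))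

theorem ISet.mem_cod_iff {A : ISet M T} {x : M} : x ∈ A.cod ↔ ∃ t, t ∈ A ∧ Cd.code t = x := by
  have h := A.2.choose_spec
  rw [ISet.cod, mem_sep (Df.mem (DfF.var 0) (DfF.const _)), Cd.mem_car]
  constructor
  · rintro ⟨h1, t, rfl⟩
    exact ⟨t, (h t).1 h1, rfl⟩
  · rintro ⟨t, h1, rfl⟩
    exact ⟨(h t).2 h1, t, rfl⟩

theorem ISet.mem_cod {A : ISet M T} {t : T} : Cd.code t ∈ A.cod ↔ t ∈ A := by
  rw [ISet.mem_cod_iff]
  constructor
  · rintro ⟨s, hs, h⟩
    rwa [← Cd.inj h]
  · intro h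
    exact ⟨t, h, rfl⟩

noncomputable instance instCdISet : Cd M (ISet M T) where
  code := ISet.cod
  inj := by
    intro A B h
    ext t
    rw [← ISet.mem_cod, ← ISet.mem_cod, h]
  car := pow (Cd.car T)
  mem_car := by
    intro r
    rw [mem_pow]
    constructor
    · intro h
      have hr : In M (fun t : T => Cd.code t ∈ r) := ⟨r, fun t => Iff.rfl⟩
      refine ⟨ISet.mk hr, ?_⟩
      refine MP_07d118_lc.ext fun x => ?_
      rw [ISet.mem_cod_iff]
      constructor
      · rintro ⟨t, ht, rfl⟩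
        exact ht
      · intro hx
        obtain ⟨t, rfl⟩ := (Cd.mem_car x).1 (h x hx)
        exact ⟨t, hx, rfl⟩
    · rintro ⟨A, rfl⟩ x hx
      obtain ⟨t, -, rfl⟩ := ISet.mem_cod_iff.1 hx
      exact code_mem_car t

theorem code_iset (A : ISet M T) : (Cd.code A : M) = A.cod := rfl

theorem mem_code_iset {A : ISet M T} {t : T} : (Cd.code t : M) ∈ (Cd.code A : M) ↔ t ∈ A :=
  ISet.mem_cod

theorem In.mem0 : In M (fun y : S × ISet M S => y.1 ∈ y.2) := by
  refine In.of_df (R := fun x => ∃ a, ∃ b, x = opair a b ∧ a ∈ b) ?_ fun y => ?_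
  · refine Df.ex (P := fun a (w : Fin 1 → M) => ∃ b, w 0 = opair a b ∧ a ∈ b) ?_
    refine Df.ex (P := fun b (w : Fin 2 → M) => w 1 = opair (w 0) b ∧ w 0 ∈ b) ?_
    exact (Df.eq (DfF.var 2) (DfF.Opair (DfF.var 1) (DfF.var 0))).and
      (Df.mem (DfF.var 1) (DfF.var 0))
  · obtain ⟨s, A⟩ := y
    constructor
    · intro h
      exact ⟨_, _, rfl, mem_code_iset.2 h⟩
    · rintro ⟨a, b, h1, h2⟩
      obtain ⟨rfl, rfl⟩ := opair_inj.1 h1
      exact mem_code_iset.1 h2

theorem In.mem {f : T → S} (hf : IF M f) {A : T → ISet M S} (hA : IF M A) :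
    In M (fun t => f t ∈ A t) :=
  In.comp2 (P := fun (s : S) (B : ISet M S) => s ∈ B) In.mem0 hf hA

/-- comprehension, as an internal function of the parameter -/
def ISet.sec {P : T → S → Prop} (h : In M (fun y : T × S => P y.1 y.2)) (t : T) : ISet M S :=
  ISet.mk (h.fix t)

@[simp] theorem ISet.mem_sec {P : T → S → Prop} (h : In M (fun y : T × S => P y.1 y.2)) {t : T}
    {s : S} : s ∈ ISet.sec h t ↔ P t s := Iff.rfl

/-- A set-valued function is internal if its membership relation is. -/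
theorem IF.of_mem {A : T → ISet M S} (h : In M (fun y : T × S => y.2 ∈ A y.1)) : IF M A := by
  have h1 : In M (fun y : (T × ISet M S) × S => y.2 ∈ A y.1.1 ↔ y.2 ∈ y.1.2) := by
    refine In.iff ?_ ?_
    · exact In.comp2 (P := fun (t : T) (s : S) => s ∈ A t) h (IF.comp IF.fst IF.fst) IF.snd
    · exact In.mem IF.snd (IF.comp IF.snd IF.fst)
  exact (In.all (P := fun (y : T × ISet M S) s => s ∈ A y.1 ↔ s ∈ y.2) h1).congr fun y =>
    ⟨fun h s => by rw [h], fun h => ISet.ext h⟩

theorem IF.sec {P : T → S → Prop} (h : In M (fun y : T × S => P y.1 y.2)) :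
    IF M (ISet.sec h) := IF.of_mem h

/-! ### Coding along embeddings -/

/-- A type which is embedded in a coded type with internal range is coded. -/
@[instance_reducible] noncomputable def Cd.ofEmb {T' : Type*} (e : T' → T) (he : Function.Injective e)
    (h : In M (fun t => ∃ t', e t' = t)) : Cd M T' where
  code t' := Cd.code (e t')
  inj := Cd.inj.comp he
  car := (ISet.mk h).cod
  mem_car := by
    intro x
    rw [ISet.mem_cod_iff]
    constructor
    · rintro ⟨t, ⟨t', rfl⟩, rfl⟩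
      exact ⟨t', rfl⟩
    · rintro ⟨t', rfl⟩
      exact ⟨_, ⟨t', rfl⟩, rfl⟩

/-- The subtype of an internal predicate is coded. -/
@[instance_reducible] noncomputable def Cd.sub {P : T → Prop} (h : In M P) : Cd M {t // P t} :=
  Cd.ofEmb (fun t : {t // P t} => t.1) Subtype.val_injective (h.congr fun t => by simp)

/-! ### Internal functions as a coded type -/

/-- the graph -/
noncomputable def IFn.gr (f : IFn M T S) : ISet M (T × S) := ISet.mk f.2

theorem IFn.mem_gr {f : IFn M T S} {y : T × S} : y ∈ f.gr ↔ f.1 y.1 = y.2 := Iff.rfl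

theorem IFn.gr_inj : Function.Injective (IFn.gr : IFn M T S → ISet M (T × S)) := by
  intro f g h
  refine Subtype.ext (funext fun t => ?_)
  have h1 : (t, f.1 t) ∈ f.gr := rfl
  rw [h] at h1
  exact (IFn.mem_gr.1 h1).symm

theorem IFn.gr_range : In M (fun A : ISet M (T × S) => ∃ f, IFn.gr f = A) := by
  have h : In M (fun A : ISet M (T × S) => ∀ t, ∃ s, (t, s) ∈ A ∧ ∀ s', (t, s') ∈ A → s' = s) := by
    refine In.all (P := fun (A : ISet M (T × S)) t => ∃ s, (t, s) ∈ A ∧ ∀ s', (t, s') ∈ A → s' = s) ?_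
    refine In.ex (P := fun (y : ISet M (T × S) × T) s => (y.2, s) ∈ y.1 ∧
      ∀ s', (y.2, s') ∈ y.1 → s' = s) ?_
    refine In.and ?_ ?_
    · exact In.mem ((IF.comp IF.snd IF.fst).pair IF.snd) (IF.comp IF.fst IF.fst)
    · refine In.all (P := fun (y : (ISet M (T × S) × T) × S) s' => (y.1.2, s') ∈ y.1.1 →
        s' = y.2) ?_
      refine In.imp ?_ ?_
      · exact In.mem (((IF.comp IF.snd (IF.comp IF.fst IF.fst))).pair IF.snd)
          (IF.comp IF.fst (IF.comp IF.fst IF.fst))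
      · exact In.eq IF.snd (IF.comp IF.snd IF.fst)
  refine h.congr fun A => ?_
  constructor
  · rintro ⟨f, rfl⟩ t
    exact ⟨f.1 t, rfl, fun s' h => h.symm⟩
  · intro hA
    choose f hf hf' using hA
    have hin : IF M f := by
      refine In.congr A.2 fun y => ?_
      constructor
      · intro h1
        show y ∈ A
        obtain ⟨t, s⟩ := y
        obtain rfl : f t = s := h1
        exact hf t
      · intro h1
        exact (hf' y.1 y.2 h1).symm
    refine ⟨⟨f, hin⟩, ?_⟩
    ext y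
    rw [IFn.mem_gr]
    constructor
    · intro h1
      obtain ⟨t, s⟩ := y
      obtain rfl : f t = s := h1
      exact hf t
    · intro h1
      exact (hf' y.1 y.2 h1).symm

noncomputable instance instCdIFn : Cd M (IFn M T S) := Cd.ofEmb IFn.gr IFn.gr_inj IFn.gr_range

theorem IF.gr : IF M (IFn.gr : IFn M T S → ISet M (T × S)) :=
  IF.of_df (F := fun x => x) (DfF.var 0) fun _ => rfl

/-- evaluation is internal -/
theorem IF.app0 : IF M (fun y : IFn M T S × T => y.1.1 y.2) := by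
  refine IF.of_in ?_
  have h : In M (fun z : (IFn M T S × T) × S => (z.1.2, z.2) ∈ z.1.1.gr) :=
    In.mem ((IF.comp IF.snd IF.fst).pair IF.snd) (IF.comp IF.gr (IF.comp IF.fst IF.fst))
  exact h

theorem IF.app {f : U → IFn M T S} (hf : IF M f) {t : U → T} (ht : IF M t) :
    IF M (fun a => (f a).1 (t a)) :=
  IF.comp (g := fun y : IFn M T S × T => y.1.1 y.2) IF.app0 (hf.pair ht)

/-- currying -/
def IFn.sec {f : U → T → S} (h : IF M (fun y : U × T => f y.1 y.2)) (a : U) : IFn M T S :=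
  ⟨f a, by
    refine IF.of_in ?_
    exact In.fix (P := fun (a : U) (y : T × S) => f a y.1 = y.2) (In.eq
      (IF.comp h (IF.fst.pair (IF.comp IF.fst IF.snd))) (IF.comp IF.snd IF.snd)) a⟩

theorem IFn.sec_val {f : U → T → S} (h : IF M (fun y : U × T => f y.1 y.2)) (a : U) :
    (IFn.sec h a).1 = f a := rfl

/-- A function-valued function is internal if the uncurried function is. -/
theorem IF.of_app {F : U → IFn M T S} (h : IF M (fun y : U × T => (F y.1).1 y.2)) : IF M F := by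
  have h1 : IF M (fun a => (F a).gr) := IF.of_mem (A := fun a => (F a).gr) (by
    refine In.congr (In.eq (f := fun y : U × (T × S) => (F y.1).1 y.2.1)
      (g := fun y : U × (T × S) => y.2.2) ?_ ?_) fun y => Iff.rfl
    · exact IF.comp h (IF.fst.pair (IF.comp IF.fst IF.snd))
    · exact IF.comp IF.snd IF.snd)
  refine IF.of_in ((In.eq (f := fun y : U × IFn M T S => (F y.1).gr)
    (g := fun y : U × IFn M T S => y.2.gr) (IF.comp h1 IF.fst) (IF.comp IF.gr IF.snd)).congr
    fun y => ⟨fun h => by rw [h], fun h => IFn.gr_inj h⟩)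

theorem IF.fsec {f : U → T → S} (h : IF M (fun y : U × T => f y.1 y.2)) : IF M (IFn.sec h) :=
  IF.of_app h

end

/-! ### Choice -/

section choice

variable [ZFC M] [Cd M T] [Cd M S]

/-- Internal choice. -/
theorem In.choice {R : T → S → Prop} (h : In M (fun y : T × S => R y.1 y.2))
    (hR : ∀ t, ∃ s, R t s) : ∃ f : T → S, IF M f ∧ ∀ t, R t (f t) := by
  obtain ⟨r, hr⟩ := h
  let F : M → M := fun x => sep r (fun z => ∃ b, z = opair x b ∧ b ∈ (Cd.car S : M))
  have hFd : DfF (fun w : Fin 1 → M => F (w 0)) := by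
    refine DfF.Sep (DfF.const r) (P := fun z (v : Fin 1 → M) => ∃ b, z = opair (v 0) b ∧
      b ∈ (Cd.car S : M)) ?_
    refine Df.ex (P := fun b (w : Fin 2 → M) => w 0 = opair (w 1) b ∧ b ∈ (Cd.car S : M)) ?_
    exact (Df.eq (DfF.var 1) (DfF.Opair (DfF.var 2) (DfF.var 0))).and
      (Df.mem (DfF.var 0) (DfF.const _))
  have hF : ∀ x z, z ∈ F x ↔ z ∈ r ∧ ∃ b, z = opair x b ∧ b ∈ (Cd.car S : M) := by
    intro x z
    refine mem_sep ?_
    refine Df.ex (P := fun b (w : Fin 1 → M) => w 0 = opair x b ∧ b ∈ (Cd.car S : M)) ?_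
    exact (Df.eq (DfF.var 1) (DfF.Opair (DfF.const _) (DfF.var 0))).and
      (Df.mem (DfF.var 0) (DfF.const _))
  obtain ⟨c, hc⟩ := ZFC.choice (image (Cd.car T : M) F) (by
      intro A hA
      obtain ⟨x, hx, rfl⟩ := (mem_image hFd).1 hA
      obtain ⟨t, rfl⟩ := (Cd.mem_car x).1 hx
      obtain ⟨s, hs⟩ := hR t
      exact ⟨opair (Cd.code t) (Cd.code s), (hF _ _).2 ⟨(hr (t, s)).2 hs, _, rfl, code_mem_car s⟩⟩)
    (by
      intro A B z hA hB hzA hzB
      obtain ⟨x, hx, rfl⟩ := (mem_image hFd).1 hA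
      obtain ⟨y, hy, rfl⟩ := (mem_image hFd).1 hB
      obtain ⟨-, b, rfl, -⟩ := (hF _ _).1 hzA
      obtain ⟨-, b', h, -⟩ := (hF _ _).1 hzB
      obtain ⟨rfl, -⟩ := opair_inj.1 h
      rfl)
  have key : ∀ t, ∃ s, R t s ∧ opair (Cd.code t) (Cd.code s) ∈ c ∧
      ∀ s', R t s' → opair (Cd.code t) (Cd.code s') ∈ c → s' = s := by
    intro t
    obtain ⟨z, ⟨hz1, hz2⟩, hz3⟩ := hc (F (Cd.code t)) ((mem_image hFd).2 ⟨_, code_mem_car t, rfl⟩)
    obtain ⟨hzr, b, rfl, hb⟩ := (hF _ _).1 hz1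
    obtain ⟨s, rfl⟩ := (Cd.mem_car b).1 hb
    refine ⟨s, (hr (t, s)).1 hzr, hz2, fun s' h1 h2 => ?_⟩
    have := hz3 (opair (Cd.code t) (Cd.code s')) ⟨(hF _ _).2 ⟨(hr (t, s')).2 h1, _, rfl,
      code_mem_car s'⟩, h2⟩
    exact Cd.inj (opair_inj.1 this).2
  choose f hf1 hf2 hf3 using key
  refine ⟨f, ?_, hf1⟩
  refine IF.of_in (In.congr (P := fun y : T × S => R y.1 y.2 ∧ opair (Cd.code y.1) (Cd.code y.2) ∈ c)
    (In.and ⟨r, hr⟩ ⟨c, fun y => Iff.rfl⟩) fun y => ?_)
  constructor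
  · intro h
    obtain ⟨t, s⟩ := y
    obtain rfl : f t = s := h
    exact ⟨hf1 t, hf2 t⟩
  · rintro ⟨h1, h2⟩
    exact (hf3 y.1 y.2 h1 h2).symm

end choice

end Pool.Agent.H.MP_a163f2_lc
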