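import Pool.Agent.H.MP_a163f2_lc.T2

/-!
# Block T, part 3: the natural numbers as a coded type; recursion along internal well orders
-/

set_option autoImplicit false
set_option linter.unusedSectionVars false

namespace Pool.Agent.H.MP_a163f2_lc

open Pool.Agent.H.MP_07d118_lc

universe u v w x

variable {M : Type u} [SetStr M]
variable {T : Type v} {S : Type w} {W : Type x}

/-! ### The numerals -/

section nat

variable [ZF M]

/-- the numerals of the model -/
noncomputable def nm : ℕ → M
  | 0 => emp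
  | n + 1 => suc (nm n)

theorem nm_mem (n : ℕ) : (nm n : M) ∈ (om : M) := by
  induction n with
  | zero => exact emp_mem_om
  | succ n ih => exact suc_mem_om ih

theorem nm_lt {m n : ℕ} (h : m < n) : (nm m : M) ∈ (nm n : M) := by
  induction n with
  | zero => omega
  | succ n ih =>
    rcases Nat.lt_succ_iff_lt_or_eq.1 h with h | rfl
    · exact mem_suc.2 (Or.inl (ih h))
    · exact lt_suc _

theorem nm_inj : Function.Injective (nm : ℕ → M) := by
  intro m n h
  rcases lt_trichotomy m n with h1 | h1 | h1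
  · have := nm_lt (M := M) h1
    rw [h] at this
    exact absurd this (not_mem_self _)
  · exact h1
  · have := nm_lt (M := M) h1
    rw [h] at this
    exact absurd this (not_mem_self _)

theorem om_cases' : ∀ c : M, c ∈ (om : M) → c = emp ∨ ∃ i : M, i ∈ (om : M) ∧ c = suc i := by
  refine nat_ind ?_ ?_ ?_
  · apply_rules (transparency := .reducible) (maxDepth := 1000) [Df.not, Df.or, Df.ex, Df.and,
      Df.mem, Df.eq, DfF.Suc, DfF.var, DfF.const]
  · exact Or.inl rfl
  · intro n hn _
    exact Or.inr ⟨n, hn, rfl⟩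

theorem exists_nm [Std M] {x : M} : x ∈ (om : M) → ∃ n, nm n = x := by
  induction x using (Std.wf (M := M)).induction with
  | _ x ih =>
    intro hx
    rcases om_cases' x hx with rfl | ⟨i, hi, rfl⟩
    · exact ⟨0, rfl⟩
    · obtain ⟨n, rfl⟩ := ih i (lt_suc i) hi
      exact ⟨n + 1, rfl⟩

theorem nm_lt_iff {m n : ℕ} : (nm m : M) ∈ (nm n : M) ↔ m < n := by
  constructor
  · intro h
    rcases lt_trichotomy m n with h1 | rfl | h1
    · exact h1
    · exact absurd h (not_mem_self _)
    · exact absurd (lt_trans' (nm_mem n) h (nm_lt h1)) (not_mem_self _)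
  · exact nm_lt

/-- The natural numbers are coded by the numerals. -/
noncomputable instance instCdNat [Std M] : Cd M ℕ where
  code := nm
  inj := nm_inj
  car := om
  mem_car x := ⟨exists_nm, by rintro ⟨n, rfl⟩; exact nm_mem n⟩

variable [Std M] [Cd M T]

theorem code_nat (n : ℕ) : (Cd.code n : M) = nm n := rfl

theorem In.lt0 : In M (fun y : ℕ × ℕ => y.1 < y.2) := by
  refine In.of_df (R := fun x => ∃ a, ∃ b, x = opair a b ∧ a ∈ b) ?_ fun y => ?_
  · apply_rules (transparency := .reducible) [Df.ex, Df.and, Df.mem, Df.eq, DfF.Opair, DfF.var]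
  · obtain ⟨m, n⟩ := y
    constructor
    · intro h
      exact ⟨_, _, rfl, nm_lt h⟩
    · rintro ⟨a, b, h1, h2⟩
      obtain ⟨rfl, rfl⟩ := opair_inj.1 h1
      exact nm_lt_iff.1 h2

theorem In.lt {f g : T → ℕ} (hf : IF M f) (hg : IF M g) : In M (fun t => f t < g t) :=
  In.comp2 (P := fun a b : ℕ => a < b) In.lt0 hf hg

theorem In.le {f g : T → ℕ} (hf : IF M f) (hg : IF M g) : In M (fun t => f t ≤ g t) :=
  (In.lt hg hf).not.congr fun t => by simp

theorem IF.succ : IF M Nat.succ := IF.of_df (F := fun x => suc x) (DfF.Suc (DfF.var 0)) fun _ => rfl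

/-- every finite set of natural numbers, and every finite function, is internal: see `T4` -/
theorem In.nat_eq {f : T → ℕ} (hf : IF M f) (n : ℕ) : In M (fun t => f t = n) :=
  In.eq hf (IF.const n)

end nat

/-! ### Recursion along an internal well-founded transitive relation -/

section recursion

variable [ZF M] [Cd M T] [Cd M W]

/-- restriction of an internal relation to the arguments below `γ` -/
noncomputable def rst {lt : W → W → Prop} (hlt : In M (fun y : W × W => lt y.1 y.2)) (h : ISet M (W × T))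
    (γ : W) : ISet M (W × T) :=
  ISet.mk (P := fun y => y ∈ h ∧ lt y.1 γ)
    (h.in_mem.and (In.comp2 (P := lt) hlt IF.fst (IF.const γ)))

theorem IF.rst {lt : W → W → Prop} (hlt : In M (fun y : W × W => lt y.1 y.2)) :
    IF M (fun y : ISet M (W × T) × W => MP_a163f2_lc.rst hlt y.1 y.2) := by
  refine IF.of_mem (A := fun y : ISet M (W × T) × W => MP_a163f2_lc.rst hlt y.1 y.2) ?_
  refine In.congr (P := fun z : (ISet M (W × T) × W) × (W × T) => z.2 ∈ z.1.1 ∧ lt z.2.1 z.1.2)
    (In.and (In.mem IF.snd (IF.comp IF.fst IF.fst)) (In.comp2 (P := lt) hlt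
      (IF.comp IF.fst IF.snd) (IF.comp IF.snd IF.fst))) fun z => Iff.rfl

/-- Recursion along an internal, well-founded and transitive relation. -/
theorem exists_rec {lt : W → W → Prop} (hlt : In M (fun y : W × W => lt y.1 y.2))
    (wf : WellFounded lt) (tr : ∀ a b c, lt a b → lt b c → lt a c)
    {Φ : W × ISet M (W × T) → T} (hΦ : IF M Φ) :
    ∃ H : W → T, IF M H ∧ ∀ α, ∃ h : In M (fun y : W × T => lt y.1 α ∧ H y.1 = y.2),
      H α = Φ (α, ISet.mk h) := by
  let App : W → ISet M (W × T) → Prop := fun β h =>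
    ∀ y : W × T, y ∈ h ↔ lt y.1 β ∧ y.2 = Φ (y.1, rst hlt h y.1)
  have hApp : In M (fun z : W × ISet M (W × T) => App z.1 z.2) := by
    refine In.all (P := fun (z : W × ISet M (W × T)) (y : W × T) =>
      y ∈ z.2 ↔ lt y.1 z.1 ∧ y.2 = Φ (y.1, rst hlt z.2 y.1)) ?_
    refine In.iff (In.mem IF.snd (IF.comp IF.snd IF.fst)) (In.and ?_ ?_)
    · exact In.comp2 (P := lt) hlt (IF.comp IF.fst IF.snd) (IF.comp IF.fst IF.fst)
    · refine In.eq (IF.comp IF.snd IF.snd) (IF.comp hΦ ((IF.comp IF.fst IF.snd).pair ?_))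
      exact IF.comp2 (F := fun (h : ISet M (W × T)) (γ : W) => rst hlt h γ) (IF.rst hlt)
        (IF.comp IF.snd IF.fst) (IF.comp IF.fst IF.snd)
  have huniq : ∀ γ β β' h h', App β h → App β' h' → lt γ β → lt γ β' →
      ∀ t, (γ, t) ∈ h ↔ (γ, t) ∈ h' := by
    intro γ
    induction γ using wf.induction with
    | _ γ ih =>
      intro β β' h h' hh hh' h1 h2 t
      have e : rst hlt h γ = rst hlt h' γ := by
        ext ⟨δ, s⟩
        constructor
        · rintro ⟨h3, h4⟩
          exact ⟨(ih δ h4 β β' h h' hh hh' (tr _ _ _ h4 h1) (tr _ _ _ h4 h2) s).1 h3, h4⟩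
        · rintro ⟨h3, h4⟩
          exact ⟨(ih δ h4 β β' h h' hh hh' (tr _ _ _ h4 h1) (tr _ _ _ h4 h2) s).2 h3, h4⟩
      rw [hh (γ, t), hh' (γ, t)]
      simp only [h1, h2, true_and, e]
  have huniq' : ∀ β h h', App β h → App β h' → h = h' := by
    intro β h h' hh hh'
    ext ⟨γ, t⟩
    constructor
    · intro h1
      exact (huniq γ β β h h' hh hh' ((hh _).1 h1).1 ((hh _).1 h1).1 t).1 h1
    · intro h1
      exact (huniq γ β β h h' hh hh' ((hh' _).1 h1).1 ((hh' _).1 h1).1 t).2 h1
  have hres : ∀ γ δ h, App γ h → lt δ γ → App δ (rst hlt h δ) := by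
    intro γ δ h hh h1 y
    have e : lt y.1 δ → rst hlt (rst hlt h δ) y.1 = rst hlt h y.1 := by
      intro h2
      ext z
      constructor
      · rintro ⟨⟨h3, h4⟩, h5⟩
        exact ⟨h3, h5⟩
      · rintro ⟨h3, h4⟩
        exact ⟨⟨h3, tr _ _ _ h4 h2⟩, h4⟩
    constructor
    · rintro ⟨h2, h3⟩
      exact ⟨h3, by rw [e h3]; exact ((hh y).1 h2).2⟩
    · rintro ⟨h2, h3⟩
      rw [e h2] at h3
      exact ⟨(hh y).2 ⟨tr _ _ _ h2 h1, h3⟩, h2⟩
  have hex : ∀ β, ∃ h, App β h := by
    intro β
    induction β using wf.induction with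
    | _ β ih =>
      have hin : In M (fun y : W × T => lt y.1 β ∧ ∃ h', App y.1 h' ∧ y.2 = Φ (y.1, h')) := by
        refine In.and (In.comp2 (P := lt) hlt IF.fst (IF.const β)) ?_
        refine In.ex (P := fun (y : W × T) h' => App y.1 h' ∧ y.2 = Φ (y.1, h')) ?_
        refine In.and (In.comp2 (P := App) hApp (IF.comp IF.fst IF.fst) IF.snd) ?_
        exact In.eq (IF.comp IF.snd IF.fst) (IF.comp hΦ ((IF.comp IF.fst IF.fst).pair IF.snd))
      refine ⟨ISet.mk hin, fun y => ?_⟩
      rw [ISet.mem_mk]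
      refine and_congr_right fun h1 => ?_
      have key : ∀ h', App y.1 h' → rst hlt (ISet.mk hin) y.1 = h' := by
        intro h' hh'
        ext z
        constructor
        · rintro ⟨⟨h3, h'', h4, h5⟩, h6⟩
          refine (hh' z).2 ⟨h6, ?_⟩
          rw [h5, huniq' z.1 h'' _ h4 (hres _ _ _ hh' h6)]
        · intro h3
          obtain ⟨h4, h5⟩ := (hh' z).1 h3
          exact ⟨⟨tr _ _ _ h4 h1, _, hres _ _ _ hh' h4, h5⟩, h4⟩
      constructor
      · rintro ⟨h', h2, h3⟩
        rw [key h' h2]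
        exact h3
      · intro h2
        obtain ⟨h', hh'⟩ := ih y.1 h1
        rw [key h' hh'] at h2
        exact ⟨h', hh', h2⟩
  choose g hg using hex
  refine ⟨fun α => Φ (α, g α), ?_, ?_⟩
  · refine IF.of_in (In.congr (P := fun y : W × T => ∃ h, App y.1 h ∧ y.2 = Φ (y.1, h)) ?_ ?_)
    · refine In.ex (P := fun (y : W × T) h => App y.1 h ∧ y.2 = Φ (y.1, h)) ?_
      refine In.and (In.comp2 (P := App) hApp (IF.comp IF.fst IF.fst) IF.snd) ?_
      exact In.eq (IF.comp IF.snd IF.fst) (IF.comp hΦ ((IF.comp IF.fst IF.fst).pair IF.snd))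
    · intro y
      constructor
      · intro h
        exact ⟨_, hg _, h.symm⟩
      · rintro ⟨h, h1, h2⟩
        rw [h2, huniq' _ _ _ h1 (hg _)]
  · intro α
    have e : ∀ y : W × T, (lt y.1 α ∧ Φ (y.1, g y.1) = y.2) ↔ y ∈ g α := by
      intro y
      rw [hg α y]
      refine and_congr_right fun h1 => ?_
      rw [huniq' _ _ _ (hg y.1) (hres _ _ _ (hg α) h1)]
      exact eq_comm
    have hin : In M (fun y : W × T => lt y.1 α ∧ Φ (y.1, g y.1) = y.2) :=
      (g α).in_mem.congr e
    refine ⟨hin, ?_⟩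
    have : g α = ISet.mk hin := by
      ext y
      exact (e y).symm
    show Φ (α, g α) = _
    rw [← this]

end recursion

/-! ### Recursion on the natural numbers -/

section natrec

variable [ZF M] [Std M] [Cd M T] [Cd M S]

/-- primitive recursion with parameters is internal -/
theorem IF.natRec {a : S → T} (ha : IF M a) {g : S × ℕ × T → T} (hg : IF M g) :
    IF M (fun y : S × ℕ => Nat.rec (motive := fun _ => T) (a y.1) (fun n t => g (y.1, n, t)) y.2) := by
  have h : In M (fun z : (S × ℕ) × T => ∃ k : IFn M ℕ T, k.1 0 = a z.1.1 ∧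
      (∀ i : ℕ, i < z.1.2 → k.1 (i + 1) = g (z.1.1, i, k.1 i)) ∧ k.1 z.1.2 = z.2) := by
    refine In.ex (P := fun (z : (S × ℕ) × T) (k : IFn M ℕ T) => k.1 0 = a z.1.1 ∧
      (∀ i : ℕ, i < z.1.2 → k.1 (i + 1) = g (z.1.1, i, k.1 i)) ∧ k.1 z.1.2 = z.2) ?_
    refine In.and ?_ (In.and ?_ ?_)
    · exact In.eq (IF.app IF.snd (IF.const 0)) (IF.comp ha (IF.comp IF.fst (IF.comp IF.fst IF.fst)))
    · refine In.all (P := fun (z : ((S × ℕ) × T) × IFn M ℕ T) (i : ℕ) => i < z.1.1.2 →
        z.2.1 (i + 1) = g (z.1.1.1, i, z.2.1 i)) ?_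
      refine In.imp ?_ ?_
      · exact In.lt IF.snd (IF.comp IF.snd (IF.comp IF.fst (IF.comp IF.fst IF.fst)))
      · refine In.eq (IF.app (IF.comp IF.snd IF.fst) (IF.comp IF.succ IF.snd)) ?_
        refine IF.comp hg (IF.pair ?_ (IF.pair IF.snd ?_))
        · exact IF.comp IF.fst (IF.comp IF.fst (IF.comp IF.fst IF.fst))
        · exact IF.app (IF.comp IF.snd IF.fst) IF.snd
    · exact In.eq (IF.app IF.snd (IF.comp IF.snd (IF.comp IF.fst IF.fst)))
        (IF.comp IF.snd IF.fst)
  refine IF.of_in (h.congr fun z => ?_)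
  obtain ⟨⟨s, n⟩, t⟩ := z
  constructor
  · intro h0
    have key : ∀ n : ℕ, ∃ k : IFn M ℕ T, ∀ i ≤ n,
        k.1 i = Nat.rec (motive := fun _ => T) (a s) (fun n t => g (s, n, t)) i := by
      intro n
      induction n with
      | zero =>
        refine ⟨⟨fun _ => a s, IF.const _⟩, fun i hi => ?_⟩
        obtain rfl : i = 0 := by omega
        rfl
      | succ n ih =>
        obtain ⟨k, hk⟩ := ih
        refine ⟨⟨fun i => if i ≤ n then k.1 i else
          Nat.rec (motive := fun _ => T) (a s) (fun n t => g (s, n, t)) (n + 1), ?_⟩, ?_⟩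
        · have := IF.ite (In.le (IF.id (T := ℕ)) (IF.const n)) k.2 (IF.const
            (Nat.rec (motive := fun _ => T) (a s) (fun n t => g (s, n, t)) (n + 1)))
          convert this
        · intro i hi
          by_cases h1 : i ≤ n
          · simp only [h1, if_true]
            exact hk i h1
          · obtain rfl : i = n + 1 := by omega
            simp only [h1, if_false]
    obtain ⟨k, hk⟩ := key n
    refine ⟨k, hk 0 (Nat.zero_le _), fun i hi => ?_, ?_⟩
    · show k.1 (i + 1) = g (s, i, k.1 i)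
      have hi' : i < n := hi
      rw [hk (i + 1) hi', hk i (le_of_lt hi')]
    · show k.1 n = t
      rw [hk n le_rfl]
      exact h0
  · rintro ⟨k, h1, h2, h3⟩
    have key : ∀ i ≤ n, k.1 i = Nat.rec (motive := fun _ => T) (a s) (fun n t => g (s, n, t)) i := by
      intro i
      induction i with
      | zero => intro _; exact h1
      | succ i ih =>
        intro hi
        rw [h2 i hi, ih (by omega)]
    have := key n le_rfl
    exact this.symm.trans h3

end natrec

end Pool.Agent.H.MP_a163f2_lc
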