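import Pool.Agent.H.MP_a163f2_lc.T3

/-!
# Block T, part 4: primitive recursive functions are internal; types coded by natural numbers
-/

set_option autoImplicit false
set_option linter.unusedSectionVars false

namespace Pool.Agent.H.MP_a163f2_lc

open Pool.Agent.H.MP_07d118_lc

universe u v w x

variable {M : Type u} [SetStr M] [ZF M] [Std M]
variable {T : Type v} {S : Type w} {U : Type x} [Cd M T] [Cd M S] [Cd M U]

/-! ### Arithmetic -/

theorem IF.natRec' {a : T → ℕ} (ha : IF M a) {n : T → ℕ} (hn : IF M n) {g : T × ℕ × ℕ → ℕ}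
    (hg : IF M g) : IF M (fun t => Nat.rec (motive := fun _ => ℕ) (a t) (fun n k => g (t, n, k)) (n t)) :=
  IF.comp (g := fun y : T × ℕ => Nat.rec (motive := fun _ => ℕ) (a y.1) (fun n k => g (y.1, n, k)) y.2)
    (IF.natRec ha hg) (IF.id.pair hn)

theorem IF.succ' {f : T → ℕ} (hf : IF M f) : IF M (fun t => f t + 1) := IF.comp IF.succ hf

theorem IF.add {f g : T → ℕ} (hf : IF M f) (hg : IF M g) : IF M (fun t => f t + g t) := by
  have h := IF.natRec' (M := M) (a := f) hf hg (g := fun y => y.2.2 + 1)
    (IF.succ' (IF.comp IF.snd IF.snd))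
  refine h.congr fun t => ?_
  induction g t with
  | zero => rfl
  | succ n ih => show f t + (n + 1) = _ + 1; rw [← ih]; rfl

theorem IF.mul {f g : T → ℕ} (hf : IF M f) (hg : IF M g) : IF M (fun t => f t * g t) := by
  have h := IF.natRec' (M := M) (a := fun _ => 0) (IF.const 0) hg (g := fun y => y.2.2 + f y.1)
    (IF.add (IF.comp IF.snd IF.snd) (IF.comp hf IF.fst))
  refine h.congr fun t => ?_
  induction g t with
  | zero => rfl
  | succ n ih => show f t * (n + 1) = _ + f t; rw [← ih]; rfl

theorem IF.natPair : IF M (fun y : ℕ × ℕ => Nat.pair y.1 y.2) := by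
  unfold Nat.pair
  exact IF.ite (T := ℕ × ℕ) (P := fun y => y.1 < y.2) (In.lt IF.fst IF.snd)
    (IF.add (IF.mul IF.snd IF.snd) IF.fst)
    (IF.add (IF.add (IF.mul IF.fst IF.fst) IF.fst) IF.snd)

theorem IF.npair {f g : T → ℕ} (hf : IF M f) (hg : IF M g) : IF M (fun t => Nat.pair (f t) (g t)) :=
  IF.comp2 (F := fun a b : ℕ => Nat.pair a b) IF.natPair hf hg

theorem IF.unpair : IF M Nat.unpair := by
  refine IF.of_in ((In.eq (f := fun y : ℕ × (ℕ × ℕ) => Nat.pair y.2.1 y.2.2)
    (g := fun y : ℕ × (ℕ × ℕ) => y.1) ?_ IF.fst).congr fun y => ?_)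
  · exact IF.npair (IF.comp IF.fst IF.snd) (IF.comp IF.snd IF.snd)
  · constructor
    · intro h
      rw [← h, Nat.pair_unpair]
    · intro h
      rw [← h, Nat.unpair_pair]

/-- Primitive recursive functions are internal. -/
theorem IF.of_primrec {f : ℕ → ℕ} (h : Nat.Primrec f) : IF M f := by
  induction h with
  | zero => exact IF.const 0
  | succ => exact IF.succ
  | left => exact IF.comp IF.fst IF.unpair
  | right => exact IF.comp IF.snd IF.unpair
  | pair _ _ ih1 ih2 => exact IF.npair ih1 ih2
  | comp _ _ ih1 ih2 => exact IF.comp ih1 ih2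
  | @prec f g _ _ ih1 ih2 =>
    have h := IF.natRec' (M := M) (T := ℕ) (a := fun n => f n.unpair.1)
      (IF.comp ih1 (IF.comp IF.fst IF.unpair)) (n := fun n => n.unpair.2)
      (IF.comp IF.snd IF.unpair)
      (g := fun y => g (Nat.pair y.1.unpair.1 (Nat.pair y.2.1 y.2.2)))
      (IF.comp ih2 (IF.npair (IF.comp IF.fst (IF.comp IF.unpair IF.fst))
        (IF.npair (IF.comp IF.fst IF.snd) (IF.comp IF.snd IF.snd))))
    exact h

/-! ### Types coded by natural numbers -/

/-- Denumerable types are coded by the natural numbers. -/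
@[instance_reducible] noncomputable def Cd.den (M : Type u) [SetStr M] [ZF M] [Std M] (α : Type v)
    [Denumerable α] : Cd M α :=
  Cd.ofEmb (T := ℕ) (Encodable.encode : α → ℕ) Encodable.encode_injective
    ((In.const True).congr fun n => iff_of_true ⟨Denumerable.ofNat α n, Denumerable.encode_ofNat n⟩
      trivial)

noncomputable instance instCdListNat : Cd M (List ℕ) := Cd.den M (List ℕ)
noncomputable instance instCdListListNat : Cd M (List (List ℕ)) := Cd.den M (List (List ℕ))

/-- The encoding of the type is internal. -/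
class CdP (M : Type u) [SetStr M] [ZF M] [Std M] (α : Type v) [Primcodable α] [Cd M α] : Prop where
  enc : IF M (Encodable.encode : α → ℕ)

instance : CdP M ℕ := ⟨IF.id⟩

instance {α β : Type*} [Primcodable α] [Primcodable β] [Cd M α] [Cd M β] [CdP M α] [CdP M β] :
    CdP M (α × β) := by
  refine ⟨?_⟩
  refine IF.congr (IF.npair (IF.comp (CdP.enc (α := α)) IF.fst) (IF.comp (CdP.enc (α := β)) IF.snd))
    fun y => ?_
  rfl

instance : CdP M (List ℕ) := ⟨IF.of_df (F := fun x => x) (DfF.var 0) fun _ => rfl⟩
instance : CdP M (List (List ℕ)) := ⟨IF.of_df (F := fun x => x) (DfF.var 0) fun _ => rfl⟩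

/-- Primitive recursive functions between types coded by natural numbers are internal. -/
theorem IF.prim {α β : Type*} [Primcodable α] [Primcodable β] [Cd M α] [Cd M β] [CdP M α]
    [CdP M β] {f : α → β} (h : Primrec f) : IF M f := by
  have h1 : IF M (fun n => Encodable.encode ((Encodable.decode (α := α) n).map f)) :=
    IF.of_primrec h
  have h2 := In.eq (f := fun y : α × β => Encodable.encode
      ((Encodable.decode (α := α) (Encodable.encode y.1)).map f))
    (g := fun y : α × β => Encodable.encode y.2 + 1)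
    (IF.comp h1 (IF.comp CdP.enc IF.fst)) (IF.succ' (IF.comp CdP.enc IF.snd))
  refine IF.of_in (h2.congr fun y => ?_)
  simp only [Encodable.encodek, Option.map_some, Encodable.encode_some, Nat.succ_eq_add_one,
    Nat.add_right_cancel_iff, Encodable.encode_inj]

theorem In.prim {α : Type*} [Primcodable α] [Cd M α] [CdP M α] {P : α → Prop} [DecidablePred P]
    (h : PrimrecPred P) : In M P := by
  have h1 : IF M (fun a => Encodable.encode (decide (P a))) := by
    refine IF.prim (β := ℕ) ?_
    exact Primrec.encode.comp h.decide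
  refine (In.eq h1 (IF.const 1)).congr fun a => ?_
  by_cases hP : P a <;> simp [hP]

theorem In.prim2 {α β : Type*} [Primcodable α] [Primcodable β] [Cd M α] [Cd M β] [CdP M α]
    [CdP M β] {P : α → β → Prop} [∀ a b, Decidable (P a b)] (h : PrimrecRel P) {f : T → α}
    (hf : IF M f) {g : T → β} (hg : IF M g) : In M (fun t => P (f t) (g t)) := by
  have h1 : In M (fun y : α × β => P y.1 y.2) := In.prim (P := fun y : α × β => P y.1 y.2) h
  exact In.comp2 (P := P) h1 hf hg

theorem IF.prim2 {α β γ : Type*} [Primcodable α] [Primcodable β] [Primcodable γ] [Cd M α]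
    [Cd M β] [Cd M γ] [CdP M α] [CdP M β] [CdP M γ] {F : α → β → γ} (h : Primrec₂ F) {f : T → α}
    (hf : IF M f) {g : T → β} (hg : IF M g) : IF M (fun t => F (f t) (g t)) :=
  IF.comp2 (F := F) (IF.prim h) hf hg

end Pool.Agent.H.MP_a163f2_lc
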