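import Pool.Agent.H.MP_a163f2_lc.T4

/-!
# Block T, part 5: finite sets as a coded type
-/

set_option autoImplicit false
set_option linter.unusedSectionVars false

namespace Pool.Agent.H.MP_a163f2_lc

open Pool.Agent.H.MP_07d118_lc

universe u v w x

variable {M : Type u} [SetStr M] [ZF M]
variable {T : Type v} {S : Type w} {U : Type x} [Cd M T] [Cd M S] [Cd M U]

open Classical in
theorem In.finset (s : Finset T) : In M (fun t => t ∈ s) := by
  induction s using Finset.induction_on with
  | empty => exact (In.const False).congr fun t => by simp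
  | insert a s _ ih =>
    exact (In.or (In.eq IF.id (IF.const a)) ih).congr fun t => by simp

theorem In.finite_set {A : Set T} (h : A.Finite) : In M (fun t => t ∈ A) :=
  (In.finset h.toFinset).congr fun t => by simp

/-- a finite set as an internal set -/
noncomputable def fis (s : Finset T) : ISet M T := ISet.mk (In.finset s)

theorem mem_fis {s : Finset T} {t : T} : t ∈ (fis s : ISet M T) ↔ t ∈ s := Iff.rfl

theorem fis_inj : Function.Injective (fis : Finset T → ISet M T) := by
  intro s s' h
  ext t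
  rw [← mem_fis (M := M), h, mem_fis]

variable [Std M]

theorem In.isFinite : In M (fun A : ISet M T => A.1.Finite) := by
  have h : In M (fun A : ISet M T => ∃ n : ℕ, ∃ R : ISet M (ℕ × T),
      (∀ i t t', (i, t) ∈ R → (i, t') ∈ R → t = t') ∧ ∀ t, t ∈ A → ∃ i, i < n ∧ (i, t) ∈ R) := by
    refine In.ex (P := fun (A : ISet M T) (n : ℕ) => ∃ R : ISet M (ℕ × T),
      (∀ i t t', (i, t) ∈ R → (i, t') ∈ R → t = t') ∧ ∀ t, t ∈ A → ∃ i, i < n ∧ (i, t) ∈ R) ?_
    refine In.ex (P := fun (y : ISet M T × ℕ) (R : ISet M (ℕ × T)) =>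
      (∀ i t t', (i, t) ∈ R → (i, t') ∈ R → t = t') ∧ ∀ t, t ∈ y.1 → ∃ i, i < y.2 ∧ (i, t) ∈ R) ?_
    refine In.and ?_ ?_
    · refine In.all (P := fun (y : (ISet M T × ℕ) × ISet M (ℕ × T)) (i : ℕ) =>
        ∀ t t', (i, t) ∈ y.2 → (i, t') ∈ y.2 → t = t') ?_
      refine In.all (P := fun (y : ((ISet M T × ℕ) × ISet M (ℕ × T)) × ℕ) (t : T) =>
        ∀ t', (y.2, t) ∈ y.1.2 → (y.2, t') ∈ y.1.2 → t = t') ?_
      refine In.all (P := fun (y : (((ISet M T × ℕ) × ISet M (ℕ × T)) × ℕ) × T) (t' : T) =>
        (y.1.2, y.2) ∈ y.1.1.2 → (y.1.2, t') ∈ y.1.1.2 → y.2 = t') ?_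
      refine In.imp (In.mem ?_ ?_) (In.imp (In.mem ?_ ?_) (In.eq ?_ ?_))
      · exact (IF.comp IF.snd (IF.comp IF.fst IF.fst)).pair (IF.comp IF.snd IF.fst)
      · exact IF.comp IF.snd (IF.comp IF.fst (IF.comp IF.fst IF.fst))
      · exact (IF.comp IF.snd (IF.comp IF.fst IF.fst)).pair IF.snd
      · exact IF.comp IF.snd (IF.comp IF.fst (IF.comp IF.fst IF.fst))
      · exact IF.comp IF.snd IF.fst
      · exact IF.snd
    · refine In.all (P := fun (y : (ISet M T × ℕ) × ISet M (ℕ × T)) (t : T) =>
        t ∈ y.1.1 → ∃ i, i < y.1.2 ∧ (i, t) ∈ y.2) ?_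
      refine In.imp (In.mem IF.snd (IF.comp IF.fst (IF.comp IF.fst IF.fst))) ?_
      refine In.ex (P := fun (y : ((ISet M T × ℕ) × ISet M (ℕ × T)) × T) (i : ℕ) =>
        i < y.1.1.2 ∧ (i, y.2) ∈ y.1.2) ?_
      refine In.and (In.lt IF.snd ?_) (In.mem ?_ ?_)
      · exact IF.comp IF.snd (IF.comp IF.fst (IF.comp IF.fst IF.fst))
      · exact IF.snd.pair (IF.comp IF.snd IF.fst)
      · exact IF.comp IF.snd (IF.comp IF.fst IF.fst)
  refine h.congr fun A => ?_
  constructor
  · intro hA
    have key : ∀ B : Set T, B.Finite → ∃ n : ℕ, ∃ R : ISet M (ℕ × T),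
        (∀ i t t', (i, t) ∈ R → (i, t') ∈ R → t = t') ∧ (∀ i t, (i, t) ∈ R → i < n) ∧
        ∀ t, t ∈ B → ∃ i, i < n ∧ (i, t) ∈ R := by
      intro B hB
      induction B, hB using Set.Finite.induction_on with
      | empty =>
        exact ⟨0, ISet.mk (In.const False), fun _ _ _ h => h.elim, fun _ _ h => h.elim,
          fun _ h => h.elim⟩
      | @insert a B _ _ ih =>
        obtain ⟨n, R, h1, h2, h3⟩ := ih
        refine ⟨n + 1, ISet.mk (P := fun y => y ∈ R ∨ y = (n, a))
          (R.in_mem.or (In.eq IF.id (IF.const _))), ?_, ?_, ?_⟩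
        · rintro i t t' (h | h) (h' | h')
          · exact h1 i t t' h h'
          · simp only [Prod.mk.injEq] at h'
            have := h2 i t h
            omega
          · simp only [Prod.mk.injEq] at h
            have := h2 i t' h'
            omega
          · simp only [Prod.mk.injEq] at h h'
            rw [h.2, h'.2]
        · rintro i t (h | h)
          · have := h2 i t h
            omega
          · simp only [Prod.mk.injEq] at h
            omega
        · rintro t (rfl | ht)
          · exact ⟨n, by omega, Or.inr rfl⟩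
          · obtain ⟨i, hi, h⟩ := h3 t ht
            exact ⟨i, by omega, Or.inl h⟩
    obtain ⟨n, R, h1, -, h3⟩ := key A.1 hA
    exact ⟨n, R, h1, h3⟩
  · rintro ⟨n, R, h1, h3⟩
    choose! g hg using h3
    refine Set.Finite.of_injOn (f := g) (t := Set.Iio n) (fun t ht => (hg t ht).1) ?_
      (Set.finite_Iio n)
    intro t ht t' ht' e
    have h4 := (hg t ht).2
    rw [e] at h4
    exact h1 _ _ _ h4 (hg t' ht').2

theorem fis_range : In M (fun A : ISet M T => ∃ s, fis s = A) := by
  refine In.isFinite.congr fun A => ?_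
  constructor
  · rintro ⟨s, rfl⟩
    exact s.finite_toSet
  · intro h
    exact ⟨h.toFinset, by ext t; rw [mem_fis]; exact h.mem_toFinset⟩

noncomputable instance instCdFinset : Cd M (Finset T) := Cd.ofEmb fis fis_inj fis_range

theorem IF.fis : IF M (MP_a163f2_lc.fis : Finset T → ISet M T) :=
  IF.of_df (F := fun x => x) (DfF.var 0) fun _ => rfl

theorem In.fmem {f : T → S} (hf : IF M f) {A : T → Finset S} (hA : IF M A) :
    In M (fun t => f t ∈ A t) := In.mem hf (IF.comp IF.fis hA)

/-- A finite-set-valued function is internal if its membership relation is. -/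
theorem IF.of_fmem {A : T → Finset S} (h : In M (fun y : T × S => y.2 ∈ A y.1)) : IF M A := by
  have h1 : IF M (fun t => (MP_a163f2_lc.fis (A t) : ISet M S)) := IF.of_mem h
  refine IF.of_in ((In.eq (f := fun y : T × Finset S => (MP_a163f2_lc.fis (A y.1) : ISet M S))
    (g := fun y : T × Finset S => MP_a163f2_lc.fis y.2) (IF.comp h1 IF.fst)
    (IF.comp IF.fis IF.snd)).congr fun y => ⟨fun h => by rw [h], fun h => fis_inj h⟩)

theorem In.fsubset {A B : T → Finset S} (hA : IF M A) (hB : IF M B) :
    In M (fun t => A t ⊆ B t) :=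
  (In.all (P := fun (t : T) (s : S) => s ∈ A t → s ∈ B t) (In.imp
    (In.fmem IF.snd (IF.comp hA IF.fst)) (In.fmem IF.snd (IF.comp hB IF.fst)))).congr fun _ => Iff.rfl

theorem IF.funion [DecidableEq S] {A B : T → Finset S} (hA : IF M A) (hB : IF M B) :
    IF M (fun t => A t ∪ B t) :=
  IF.of_fmem ((In.or (In.fmem IF.snd (IF.comp hA IF.fst))
    (In.fmem IF.snd (IF.comp hB IF.fst))).congr fun _ => Finset.mem_union)

theorem IF.finsert [DecidableEq S] {a : T → S} {B : T → Finset S} (ha : IF M a) (hB : IF M B) :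
    IF M (fun t => insert (a t) (B t)) :=
  IF.of_fmem ((In.or (In.eq IF.snd (IF.comp ha IF.fst))
    (In.fmem IF.snd (IF.comp hB IF.fst))).congr fun _ => Finset.mem_insert)

theorem IF.ffilter {A : T → Finset S} (hA : IF M A) {P : T → S → Prop}
    [∀ t, DecidablePred (P t)] (hP : In M (fun y : T × S => P y.1 y.2)) :
    IF M (fun t => (A t).filter (P t)) :=
  IF.of_fmem ((In.and (In.fmem IF.snd (IF.comp hA IF.fst)) hP).congr fun _ => Finset.mem_filter)

theorem IF.fimage [DecidableEq U] {A : T → Finset S} (hA : IF M A) {F : T → S → U}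
    (hF : IF M (fun y : T × S => F y.1 y.2)) : IF M (fun t => (A t).image (F t)) := by
  refine IF.of_fmem ((In.ex (P := fun (y : T × U) (s : S) => s ∈ A y.1 ∧ F y.1 s = y.2)
    (In.and (In.fmem IF.snd (IF.comp hA (IF.comp IF.fst IF.fst))) (In.eq ?_
      (IF.comp IF.snd IF.fst)))).congr fun _ => Finset.mem_image)
  exact IF.comp2 (F := F) hF (IF.comp IF.fst IF.fst) IF.snd

/-- The number of elements of the range of an internal function on a finite set etc.: a finite
partial function extends to an internal function. -/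
theorem IF.of_finite_support [DecidableEq T] (s : Finset T) (f : T → S) (b : S) :
    IF M (fun t => if t ∈ s then f t else b) := by
  classical
  induction s using Finset.induction_on with
  | empty => exact (IF.const b).congr fun t => by simp
  | insert a s ha ih =>
    refine (IF.ite (P := fun t => t = a) (In.eq IF.id (IF.const a)) (IF.const (f a)) ih).congr
      fun t => ?_
    by_cases h : t = a
    · simp [h]
    · simp [h]

end Pool.Agent.H.MP_a163f2_lc
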